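import Pool.Agent.N204.HJ.Stm

/-!
The semisimple part of an endomorphism killed by a polynomial `F` with rational coefficients is
the value of a polynomial with rational coefficients, which depends only on `F`.
-/

set_option autoImplicit false

open Polynomial Module

namespace Pool.Agent.N494.HJ

open Pool.Agent.N204.HJ

theorem j3 : S_J3 := by
  intro F hF
  obtain ⟨R, k, hRsq, -, hk⟩ := exists_squarefree_dvd_pow_of_ne_zero hF
  have hsep : R.Separable := PerfectField.separable_iff_squarefree.2 hRsq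
  have hA : ∀ G : ℚ[X], aeval (AdjoinRoot.root F) G = AdjoinRoot.mk F G := fun G => by
    rw [AdjoinRoot.aeval_eq]
  have nil : IsNilpotent (aeval (AdjoinRoot.root F) R) := by
    refine ⟨k, ?_⟩
    rw [← map_pow, hA, AdjoinRoot.mk_eq_zero]
    exact hk
  have sep : IsUnit (aeval (AdjoinRoot.root F) (derivative R)) := by
    obtain ⟨a, b, h⟩ : IsCoprime (R ^ k) (derivative R) := hsep.pow_left
    have h2 := congrArg (aeval (AdjoinRoot.root F)) h
    have h3 : aeval (AdjoinRoot.root F) (R ^ k) = 0 := by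
      rw [hA, AdjoinRoot.mk_eq_zero]
      exact hk
    rw [map_add, map_mul, map_mul, h3, mul_zero, zero_add, map_one] at h2
    exact IsUnit.of_mul_eq_one (aeval (AdjoinRoot.root F) b) (by rw [mul_comm]; exact h2)
  obtain ⟨y, ⟨hy1, hy2⟩, -⟩ := existsUnique_nilpotent_sub_and_aeval_eq_zero nil sep
  obtain ⟨P, rfl⟩ := AdjoinRoot.mk_surjective y
  obtain ⟨m, hm⟩ := hy1
  have h1 : F ∣ (X - P) ^ m := by
    rw [← AdjoinRoot.mk_eq_zero, map_pow, map_sub, AdjoinRoot.mk_X]
    exact hm
  have h2 : F ∣ R.comp P := by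
    rw [← AdjoinRoot.mk_eq_zero, ← hA, aeval_comp, hA]
    exact hy2
  refine ⟨P, m, h1, ?_⟩
  intro K V _ _ _ _ _ f hf
  have hev : ∀ G : ℚ[X], F ∣ G → aeval f (G.map (algebraMap ℚ K)) = 0 := by
    rintro G ⟨H, rfl⟩
    rw [Polynomial.map_mul, map_mul, hf, zero_mul]
  refine ⟨?_, ?_, ?_⟩
  · have hsq : Squarefree (R.map (algebraMap ℚ K)) := (hsep.map).squarefree
    refine Module.End.isSemisimple_of_squarefree_aeval_eq_zero hsq ?_
    rw [← aeval_comp, ← Polynomial.map_comp]
    exact hev _ h2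
  · refine ⟨m, ?_⟩
    have h3 := hev _ h1
    rw [Polynomial.map_pow, Polynomial.map_sub, map_X, map_pow, map_sub, aeval_X] at h3
    exact h3
  · have h3 : f = aeval f (X : K[X]) := (aeval_X f).symm
    show f * aeval f (P.map (algebraMap ℚ K)) = aeval f (P.map (algebraMap ℚ K)) * f
    nth_rewrite 1 [h3]
    nth_rewrite 4 [h3]
    rw [← map_mul, ← map_mul, mul_comm]

end Pool.Agent.N494.HJ
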